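import Pool.Agent.Lib.MP_f31b39_co.Lat

/-!
# T7-Par: the relations of a tight set have even length if `t` is odd
-/

namespace TightIndep.T7

open Finset

private theorem par_nrm {m : ℕ} (v : Fin m → ℤ) : Even ((nrm v : ℤ) - ∑ i, v i) := by
  have h1 : (nrm v : ℤ) - ∑ i, v i = ∑ i, (((v i).natAbs : ℤ) - v i) := by
    unfold nrm
    push_cast
    rw [Finset.sum_sub_distrib]
  rw [h1]
  refine Finset.even_sum _ fun i _ => ?_
  rcases Int.natAbs_eq (v i) with h | h
  · rw [← h, sub_self]
    exact Even.zero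
  · have h2 : ((v i).natAbs : ℤ) - v i = 2 * ((v i).natAbs : ℤ) := by omega
    rw [h2]
    exact even_two_mul _

/-- the invariant of the walk -/
private def parE {m : ℕ} (s : ℕ) (L : Set (Fin m → ℤ)) (Q : Fin m → ℤ) : Prop :=
  (∃ x ∈ L, nrm (Q - x) + 1 ≤ s ∧ Even (∑ i, x i)) ∨
    ((∀ x ∈ L, s ≤ nrm (Q - x)) ∧ Even ((∑ i, Q i) - (s : ℤ)))

private theorem par_step {m s : ℕ} {L : Set (Fin m → ℤ)} (hL : Lat m s (2 * s) L)
    (Q : Fin m → ℤ) (d : Fin m × Bool) (h : parE s L Q) : parE s L (Q + ud d) := by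
  have hup : ∀ x : Fin m → ℤ, nrm (Q + ud d - x) ≤ nrm (Q - x) + 1 := by
    intro x
    have h1 := nrm_add_le (Q - x) (ud d)
    rw [nrm_ud] at h1
    have h2 : Q + ud d - x = Q - x + ud d := by abel
    rw [h2]
    exact h1
  have hdn : ∀ x : Fin m → ℤ, nrm (Q - x) ≤ nrm (Q + ud d - x) + 1 := by
    intro x
    have h1 := nrm_sub_le (Q + ud d - x) (ud d)
    rw [nrm_ud] at h1
    have h2 : Q + ud d - x - ud d = Q - x := by abel
    rw [h2] at h1
    exact h1
  have hs := hL.hs
  rcases h with ⟨x, hx, h1, h2⟩ | ⟨h1, h2⟩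
  · by_cases hy : ∃ y ∈ L, nrm (Q + ud d - y) + 1 ≤ s
    · obtain ⟨y, hy, h3⟩ := hy
      have h4 : x - y = 0 := by
        by_contra hne
        have h5 := hL.min _ (hL.sub x hx y hy) hne
        have h6 := nrm_sub_le (Q - y) (Q - x)
        have h7 : Q - y - (Q - x) = x - y := by abel
        rw [h7] at h6
        have h8 := hdn y
        omega
      have h5 : x = y := sub_eq_zero.1 h4
      subst h5
      exact Or.inl ⟨x, hx, h3, h2⟩
    · push Not at hy
      right
      have h3 : ∀ y ∈ L, s ≤ nrm (Q + ud d - y) := fun y hy' => by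
        have := hy y hy'
        omega
      refine ⟨h3, ?_⟩
      have h4 : nrm (Q + ud d - x) = s := by
        have h5 := h3 x hx
        have h6 := hup x
        omega
      have h5 := par_nrm (Q + ud d - x)
      rw [h4] at h5
      have h6 : ∑ i, (Q + ud d - x) i = ∑ i, (Q + ud d) i - ∑ i, x i := by
        rw [← Finset.sum_sub_distrib]
        rfl
      rw [h6] at h5
      obtain ⟨a, ha⟩ := h5
      obtain ⟨b, hb⟩ := h2
      exact ⟨b - a, by linarith⟩
  · left
    obtain ⟨y, hy, h3⟩ := hL.cov Q d (Or.inr h1)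
    refine ⟨y, hy, h3, ?_⟩
    have h4 : nrm (Q - y) = s := by
      have h5 := h1 y hy
      have h6 := hdn y
      omega
    have h5 := par_nrm (Q - y)
    rw [h4] at h5
    have h6 : ∑ i, (Q - y) i = ∑ i, Q i - ∑ i, y i := by
      rw [← Finset.sum_sub_distrib]
      rfl
    rw [h6] at h5
    obtain ⟨a, ha⟩ := h5
    obtain ⟨b, hb⟩ := h2
    exact ⟨a + b, by linarith⟩

private theorem par_all {m s : ℕ} {L : Set (Fin m → ℤ)} (hL : Lat m s (2 * s) L) (n : ℕ) :
    ∀ Q : Fin m → ℤ, nrm Q = n → parE s L Q := by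
  induction n with
  | zero =>
    intro Q hQ
    have h1 := eq_zero_of_nrm hQ
    subst h1
    left
    refine ⟨0, hL.zero, ?_, ?_⟩
    · rw [sub_zero, nrm_zero]
      exact hL.hs
    · simp
  | succ n ih =>
    intro Q hQ
    obtain ⟨d, hd⟩ : ∃ d, 1 ≤ comp Q d := by
      by_contra hcon
      push Not at hcon
      have h1 : nrm Q = 0 := by
        rw [nrm_eq]
        exact Finset.sum_eq_zero fun d _ => by
          have := hcon d
          omega
      omega
    have h1 := nrm_sub_ov Q (ud d)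
    rw [ov_ud, nrm_ud, Nat.min_eq_right hd] at h1
    have h2 := par_step hL (Q - ud d) d (ih (Q - ud d) (by omega))
    rwa [sub_add_cancel] at h2

theorem even_sum {m s : ℕ} {L : Set (Fin m → ℤ)} (hL : Lat m s (2 * s) L) :
    ∀ x ∈ L, Even (∑ i, x i) := by
  intro x hx
  have hs := hL.hs
  rcases par_all hL (nrm x) x rfl with ⟨y, hy, h1, h2⟩ | ⟨h1, _⟩
  · have h3 : x - y = 0 := by
      by_contra hne
      have h4 := hL.min _ (hL.sub x hx y hy) hne
      omega
    rw [sub_eq_zero.1 h3]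
    exact h2
  · have h2 := h1 x hx
    rw [sub_self, nrm_zero] at h2
    omega

end TightIndep.T7
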