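import Pool.Agent.Lib.MP_f31b39_co.T7.Sys

/-!
# T7-Lev4: the level `r = 4`
-/

namespace TightIndep.T7

open Finset

variable {m N : ℕ} {b : Fin (m + 1) → ℤ}

theorem U_symm (b : Fin (m + 1) → ℤ) (r : ℕ) (hr : 1 ≤ r) (c : ℤ) :
    U b r (2 ^ (r - 1) - c) = - U b r c := by
  have h1 : U b r (-c) = U b r c := by
    unfold U
    have h : c + 2 ^ (r - 1) - 2 ^ r = c - 2 ^ (r - 1) := by
      obtain ⟨q, rfl⟩ : ∃ q, r = q + 1 := ⟨r - 1, by omega⟩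
      rw [Nat.add_sub_cancel]
      ring
    have h2 := T_per b r (c - 2 ^ (r - 1))
    have h3 : c - 2 ^ (r - 1) + 2 ^ r = c + 2 ^ (r - 1) := by
      rw [← h]
      ring
    rw [h3] at h2
    have h4 : -c + 2 ^ (r - 1) = -(c - 2 ^ (r - 1)) := by ring
    rw [T_neg, h4, T_neg, h2]
  have h2 := U_anti b r hr (-c)
  rw [h1] at h2
  rw [← h2]
  congr 1
  ring

private theorem int_part (u v a p p1 n w : ℤ) (hu : Odd u) (hp : p = u ^ 2 - 2 * u * v - v ^ 2)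
    (hp1 : p1 = u ^ 2 + 2 * u * v - v ^ 2) (hn : n = u ^ 2 + v ^ 2) (hw : w = a - n)
    (h1 : p1 = -(p * w)) (h2 : 2 * n = -(p * p1)) : a = 3 := by
  have hn0 : 0 < n := by
    rw [hn]
    have : u ≠ 0 := by
      rintro rfl
      exact absurd hu (by decide)
    positivity
  have h3 : 2 * n = p ^ 2 * w := by rw [h2, h1]; ring
  have h4 : p ^ 2 + p1 ^ 2 = 2 * n ^ 2 := by rw [hp, hp1, hn]; ring
  have hp0 : p ≠ 0 := by
    rintro rfl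
    rw [zero_pow (by norm_num), zero_mul] at h3
    omega
  have h5 : p ^ 2 * (w ^ 2 * (p ^ 2 - 2) - 2) = 0 := by
    have h6 : p1 ^ 2 = p ^ 2 * w ^ 2 := by rw [h1]; ring
    have h7 : 4 * n ^ 2 = p ^ 4 * w ^ 2 := by
      have : 4 * n ^ 2 = (2 * n) ^ 2 := by ring
      rw [this, h3]; ring
    nlinarith [h4, h6, h7]
  have h6 : w ^ 2 * (p ^ 2 - 2) - 2 = 0 := by
    rcases mul_eq_zero.1 h5 with h | h
    · exact absurd (pow_eq_zero_iff (by norm_num) |>.1 h) hp0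
    · exact h
  have hw1 : w ^ 2 = 1 := by
    have hpos : 0 < p ^ 2 - 2 := by
      by_contra hcon
      push Not at hcon
      nlinarith [sq_nonneg w]
    have h7 : w ≠ 0 := by
      rintro rfl
      norm_num at h6
    have h8 : 0 < w ^ 2 := by positivity
    have h9 : w ^ 2 ≤ 2 := by nlinarith
    have h10 : w < 2 := by nlinarith
    have h11 : -2 < w := by nlinarith
    have h12 : w = -1 ∨ w = 1 := by omega
    rcases h12 with h12 | h12 <;> rw [h12] <;> norm_num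
  have hp2 : p ^ 2 = 4 := by
    rw [hw1] at h6
    linarith
  have hw2 : w = 1 := by
    rw [hp2] at h3
    have : 0 < w := by linarith
    nlinarith
  rw [hp2, hw2] at h3
  linarith

/-- the level `r = 4` -/
theorem level4 (hS : Sys m N b) (hm : 2 ≤ m) (hN : 4 ≤ N) (hU : ∀ c, U b 3 c = 0)
    (hT : ∀ c, Odd c → Odd (T b 3 c)) : False := by
  obtain ⟨ω, hω⟩ := exists_root 4
  have h8 : ω ^ 8 = -1 := by
    have := pow_half (by omega) hω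
    simpa using this
  have hω3 := root_pow hω 1
  rw [pow_one] at hω3
  obtain ⟨u, hu⟩ : ∃ u, u = U b 4 1 := ⟨_, rfl⟩
  obtain ⟨v, hv⟩ : ∃ v, v = U b 4 3 := ⟨_, rfl⟩
  have hodd : Odd u := by
    rw [hu]
    have h2 := U_succ b 3 1
    show Odd (U b (3 + 1) 1)
    rw [h2]
    exact (hT 1 (by decide)).sub_even (even_two_mul _)
  have e7 : U b 4 7 = - u := by
    have := U_symm b 4 (by omega) 1
    rw [hu, ← this]
    norm_num
  have e5 : U b 4 5 = - v := by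
    have := U_symm b 4 (by omega) 3
    rw [hv, ← this]
    norm_num
  have hx : ∀ z : ℂ, IsPrimitiveRoot z (2 ^ 4) →
      tau b z = (u : ℂ) * (z - z ^ 7) + (v : ℂ) * (z ^ 3 - z ^ 5) := by
    intro z hz
    rw [tau_eq b (by omega) hz]
    have e0 := U_even b hS.odd 4 (by omega) 0 (by decide)
    have e2 := U_even b hS.odd 4 (by omega) 2 (by decide)
    have e4 := U_even b hS.odd 4 (by omega) 4 (by decide)
    have e6 := U_even b hS.odd 4 (by omega) 6 (by decide)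
    have e1 : (2 : ℕ) ^ (4 - 1) = 8 := by norm_num
    rw [e1]
    simp only [Finset.sum_range_succ, Finset.sum_range_zero]
    push_cast
    rw [e0, e2, e4, e6, e5, e7, ← hu, ← hv]
    push_cast
    ring
  have hr0 := rec hS (by omega) hN hU hω 0
  have hr1 := rec hS (by omega) hN hU hω 1
  have ha := anti hS le_rfl hω
  simp only [zero_add, pow_zero, pow_one] at hr0 hr1 ha
  have ha' : tau b (ω ^ 3 ^ (1 + 1)) = - tau b ω := by
    rw [← ha]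
  rw [ha'] at hr1
  rw [hx _ hω, hx _ hω3] at hr0 hr1
  obtain ⟨ρ, hρ⟩ : ∃ ρ, ρ = ω ^ 2 - ω ^ 6 := ⟨_, rfl⟩
  obtain ⟨C, hC⟩ : ∃ C, C = ω - ω ^ 7 := ⟨_, rfl⟩
  obtain ⟨E, hE⟩ : ∃ E, E = ω ^ 3 - ω ^ 5 := ⟨_, rfl⟩
  have q1 : (ω ^ 3) - (ω ^ 3) ^ 7 = E := by
    have : (ω ^ 3) ^ 7 = (ω ^ 8) ^ 2 * ω ^ 5 := by ring
    rw [this, h8, hE]
    ring
  have q2 : (ω ^ 3) ^ 3 - (ω ^ 3) ^ 5 = - C := by
    have : (ω ^ 3) ^ 3 - (ω ^ 3) ^ 5 = ω ^ 8 * ω - ω ^ 8 * ω ^ 7 := by ring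
    rw [this, h8, hC]
    ring
  rw [q1, q2, ← hC, ← hE] at hr0 hr1
  have c1 : C ^ 2 = 2 + ρ := by
    have : C ^ 2 = ω ^ 2 - 2 * ω ^ 8 + ω ^ 8 * ω ^ 6 := by rw [hC]; ring
    rw [this, h8, hρ]; ring
  have c2 : E ^ 2 = 2 - ρ := by
    have : E ^ 2 = ω ^ 6 - 2 * ω ^ 8 + ω ^ 8 * ω ^ 2 := by rw [hE]; ring
    rw [this, h8, hρ]; ring
  have c3 : C * E = ρ := by
    have : C * E = ω ^ 4 - ω ^ 6 - ω ^ 8 * ω ^ 2 + ω ^ 8 * ω ^ 4 := by rw [hC, hE]; ring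
    rw [this, h8, hρ]; ring
  have c4 : ρ ^ 2 = 2 := by
    have : ρ ^ 2 = ω ^ 4 - 2 * ω ^ 8 + ω ^ 8 * ω ^ 4 := by rw [hρ]; ring
    rw [this, h8]; ring
  have hρ0 : ρ ≠ 0 := by
    intro h0
    rw [h0] at c4
    norm_num at c4
  obtain ⟨x, hx0⟩ : ∃ x : ℂ, x = u * C + v * E := ⟨_, rfl⟩
  obtain ⟨y, hy0⟩ : ∃ y : ℂ, y = u * E + v * -C := ⟨_, rfl⟩
  rw [← hx0, ← hy0] at hr0 hr1
  have d1 : x ^ 2 = 2 * (u ^ 2 + v ^ 2) + ρ * (u ^ 2 + 2 * u * v - v ^ 2) := by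
    rw [hx0]
    linear_combination (u : ℂ) ^ 2 * c1 + (v : ℂ) ^ 2 * c2 + 2 * (u : ℂ) * v * c3
  have d2 : y ^ 2 = 2 * (u ^ 2 + v ^ 2) - ρ * (u ^ 2 + 2 * u * v - v ^ 2) := by
    rw [hy0]
    linear_combination (u : ℂ) ^ 2 * c2 + (v : ℂ) ^ 2 * c1 - 2 * (u : ℂ) * v * c3
  have d3 : x * y = ρ * (u ^ 2 - 2 * u * v - v ^ 2) := by
    rw [hx0, hy0]
    linear_combination ((u : ℂ) ^ 2 - v ^ 2) * c3 + (u : ℂ) * v * c2 - (u : ℂ) * v * c1
  have f1 : y ^ 2 - x ^ 2 = 2 * (x * y) * ((3 * m : ℤ) : ℂ) - (x * y) * (x ^ 2 + y ^ 2) / 2 := by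
    linear_combination (1 / 2) * y * hr0 + (1 / 2) * x * hr1
  have f2 : 2 * (x ^ 2 + y ^ 2) = (x * y) * (y ^ 2 - x ^ 2) := by
    linear_combination y * hr0 - x * hr1
  rw [d1, d2, d3] at f1 f2
  have g1 : ((u ^ 2 + 2 * u * v - v ^ 2 : ℤ) : ℂ) =
      ((-((u ^ 2 - 2 * u * v - v ^ 2) * (3 * m - (u ^ 2 + v ^ 2))) : ℤ) : ℂ) := by
    apply mul_left_cancel₀ hρ0
    push_cast at f1 ⊢
    linear_combination (-1 / 2) * f1
  have g2 : ((2 * (u ^ 2 + v ^ 2) : ℤ) : ℂ) =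
      ((-((u ^ 2 - 2 * u * v - v ^ 2) * (u ^ 2 + 2 * u * v - v ^ 2)) : ℤ) : ℂ) := by
    push_cast
    linear_combination (1 / 4) * f2 +
      (-1 / 2) * ((u : ℂ) ^ 2 - 2 * u * v - v ^ 2) * (u ^ 2 + 2 * u * v - v ^ 2) * c4
  have g3 := int_part u v (3 * m) _ _ _ _ hodd rfl rfl rfl rfl (by exact_mod_cast g1)
    (by exact_mod_cast g2)
  omega

end TightIndep.T7
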