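import Pool.Agent.Lib.MP_f31b39_co.T7.Lev
import Pool.Agent.Lib.MP_f31b39_co.T7.Lev4
import Pool.Agent.Lib.MP_f31b39_co.T7.Par
import Pool.Agent.Lib.MP_f31b39_co.T7.Eq

/-!
# T7-Main: tight 7-independent sets in cyclic groups
-/

namespace TightIndep.T7

open Finset

theorem fam_surj {G : Type} [AddCommGroup G] [Fintype G] {m : ℕ} (a : Fin (m + 1) → G)
    (h : ∀ v ∈ rel a, v ≠ 0 → 8 ≤ nrm v) (hG : Fintype.card G = bound (m + 1) 7) (g : G) :
    ∃ u : Fin (m + 1) → ℤ, ∑ i, u i • a i = g := by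
  have h1 := sum_image_fam 7 a h (dball 4 (0, true)) (by
    intro u hu u' hu'
    rw [mem_dball] at hu hu'
    have h3 := nrm_sub_le u u'
    have h4 := nrm_sub_le (u + ud (0, true)) (u' + ud (0, true))
    rw [add_sub_add_right_eq_sub] at h4
    have h5 : nrm (u' + ud (0, true) - ud (0, true)) ≤ nrm (u' + ud (0, true)) +
      nrm (ud ((0 : Fin (m + 1)), true)) := nrm_sub_le _ _
    have h6 : nrm (u + ud (0, true) - ud (0, true)) ≤ nrm (u + ud (0, true)) +
      nrm (ud ((0 : Fin (m + 1)), true)) := nrm_sub_le _ _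
    rw [add_sub_cancel_right, nrm_ud] at h5 h6
    omega) (by
    rw [hG, card_dball, show (7 : ℕ) = 2 * 4 - 1 by norm_num, bound_odd m 4 (by norm_num)])
  obtain ⟨u, -, hu⟩ := h1.1 g
  exact ⟨u, hu⟩

theorem odd_val {n : ℕ} [NeZero n] {m : ℕ} (a : Fin (m + 1) → ZMod n)
    (h : ∀ v ∈ rel a, v ≠ 0 → 8 ≤ nrm v) (hG : Fintype.card (ZMod n) = bound (m + 1) 7)
    (i : Fin (m + 1)) : Odd (((a i).val : ℕ) : ℤ) := by
  have hL : Lat (m + 1) 4 (2 * 4) (rel a) :=
    lat_of_family 7 (by norm_num) a (by omega) (fun v hv hv0 => h v hv hv0) hG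
  obtain ⟨u, hu⟩ := fam_surj a h hG 1
  have h1 : (fun j => ((a i).val : ℤ) * u j - (if j = i then 1 else 0)) ∈ rel a := by
    show ∑ j, (((a i).val : ℤ) * u j - (if j = i then 1 else 0)) • a j = 0
    simp only [sub_smul, mul_smul, Finset.sum_sub_distrib, ← Finset.smul_sum, hu, ite_smul,
      one_smul, zero_smul, Finset.sum_ite_eq', Finset.mem_univ, if_true]
    simp
  have h2 := even_sum hL _ h1
  rw [Finset.sum_sub_distrib, ← Finset.mul_sum, Finset.sum_ite_eq' Finset.univ i,
    if_pos (Finset.mem_univ _)] at h2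
  have h3 : Odd (((a i).val : ℤ) * ∑ j, u j) := by
    have := h2.add_odd (odd_one : Odd (1 : ℤ))
    simpa using this
  exact (Int.odd_mul.1 h3).1

private theorem sys {n : ℕ} [NeZero n] {m : ℕ} (a : Fin (m + 1) → ZMod n)
    (h : ∀ v ∈ rel a, v ≠ 0 → 8 ≤ nrm v) (hG : Fintype.card (ZMod n) = bound (m + 1) 7)
    (N : ℕ) (hN : 2 ^ N ∣ n) : Sys m N (fun i => ((a i).val : ℤ)) := by
  refine ⟨odd_val a h hG, ?_⟩
  intro r hr hrN ω hω
  have hn1 : ω ^ n = 1 := by
    rw [hω.pow_eq_one_iff_dvd]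
    exact (pow_dvd_pow 2 hrN).trans hN
  have h1 := seven_eq a h hG (AddChar.zmodChar n hn1) ⟨1, by
    rw [AddChar.zmodChar_apply]
    have h2 : (1 : ZMod n).val = 1 := by
      rw [ZMod.val_one_eq_one_mod]
      apply Nat.mod_eq_of_lt
      have h3 := Nat.le_of_dvd (Nat.pos_of_ne_zero (NeZero.ne n)) hN
      have h4 : 2 ^ 2 ≤ 2 ^ N := Nat.pow_le_pow_right (by norm_num) (by omega)
      omega
    rw [h2, pow_one]
    intro h5
    have h6 := (hω.pow_eq_one_iff_dvd 2).1 h5
    have h7 := Nat.le_of_dvd (by norm_num) h6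
    have h8 : 2 ^ 2 ≤ 2 ^ r := Nat.pow_le_pow_right (by norm_num) hr
    omega⟩
  simp only [AddChar.zmodChar_apply] at h1
  unfold tau
  have e : ∀ k : ℕ, ∑ i, ((ω ^ k) ^ (((a i).val : ℕ) : ℤ) + (ω ^ k)⁻¹ ^ (((a i).val : ℕ) : ℤ)) =
      ∑ i, ((ω ^ (a i).val) ^ k + (ω ^ (a i).val)⁻¹ ^ k) := by
    intro k
    refine Finset.sum_congr rfl fun i _ => ?_
    rw [zpow_natCast, zpow_natCast, ← pow_mul, inv_pow, ← pow_mul, inv_pow, ← pow_mul,
      mul_comm k]
  have e1 := e 1
  simp only [pow_one] at e1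
  rw [e 3, e 2, e1]
  exact h1

/-- the theorem for families -/
theorem family {n : ℕ} [NeZero n] {m : ℕ} (a : Fin (m + 1) → ZMod n)
    (h : ∀ v ∈ rel a, v ≠ 0 → 8 ≤ nrm v) (hG : Fintype.card (ZMod n) = bound (m + 1) 7)
    (hm : 2 ≤ m) : ¬ 4 ∣ (m + 1) ∧ ∃ s : ℕ, 3 * (m + 1) = s ^ 2 + 2 := by
  obtain ⟨b, hb⟩ : ∃ b : Fin (m + 1) → ℤ, b = fun i => ((a i).val : ℤ) := ⟨_, rfl⟩
  have h3n : 3 * n = 8 * (m + 1) * ((m + 1) ^ 2 + 2) := by
    rw [← three_bound (m + 1) (by omega), ← hG, ZMod.card]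
  have key : ∀ N, 2 ^ N ∣ 8 * (m + 1) * ((m + 1) ^ 2 + 2) → Sys m N b := by
    intro N hN
    rw [hb]
    apply sys a h hG
    rw [← h3n] at hN
    exact (Nat.Coprime.dvd_mul_left (Nat.Coprime.pow_left _ (by norm_num))).1 hN
  have hS3 : Sys m 3 b := key 3 ⟨(m + 1) * ((m + 1) ^ 2 + 2), by ring⟩
  rcases level3 hS3 le_rfl with hU | ⟨s, hs⟩
  · -- `U_3 = 0`
    exfalso
    have hU3 : ∀ q, 2 ≤ q → q ≤ 3 → ∀ c, U b q c = 0 := by
      intro q h1 h2 c
      have : q = 2 ∨ q = 3 := by omega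
      rcases this with rfl | rfl
      · exact U_two b hS3.odd c
      · exact hU c
    have hT3 : ∀ c, Odd c → 2 * T b 3 c = (m + 1 : ℕ) := by
      intro c hc
      have h1 := T_unif b hS3.odd 3 (by norm_num) hU3 c hc
      norm_num at h1
      push_cast
      linarith
    have hmo : Odd m := by
      have h1 := hT3 1 (by decide)
      rw [Nat.odd_iff]
      omega
    by_cases h4 : 4 ∣ m + 1
    · obtain ⟨v, q, hq, hv⟩ := Nat.exists_eq_two_pow_mul_odd (n := m + 1) (by omega)
      have hv2 : 2 ≤ v := by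
        by_contra hcon
        have : v = 0 ∨ v = 1 := by omega
        rcases this with rfl | rfl
        · rw [pow_zero, one_mul] at hv
          rw [← hv] at hq
          have := Nat.odd_iff.1 hq
          omega
        · rw [hv] at h4
          have := Nat.odd_iff.1 hq
          omega
      have hvZ : ((m + 1 : ℕ) : ℤ) = 2 ^ v * q := by exact_mod_cast hv
      have hS : Sys m (v + 3) b := by
        apply key
        rw [hv]
        exact ⟨q * ((2 ^ v * q) ^ 2 + 2), by ring⟩
      have hP : ∀ k, 1 ≤ k → k ≤ v → ∀ p, 2 ≤ p → p ≤ k + 2 → ∀ c, U b p c = 0 := by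
        intro k hk
        induction k, hk using Nat.le_induction with
        | base =>
          intro _ p h1 h2
          exact hU3 p h1 h2
        | succ k hk ih =>
          intro hkv p h1 h2
          rcases Nat.lt_or_ge p (k + 3) with h5 | h5
          · exact ih (by omega) p h1 (by omega)
          · have h6 : p = k + 3 := by omega
            rw [h6]
            apply step_even hS hmo hk (by omega) (ih (by omega) (k + 2) (by omega) le_rfl)
            intro c
            rcases Int.even_or_odd c with hc | hc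
            · rw [T_even b hS.odd (k + 2) (by omega) c hc]
              exact Even.zero
            · have h7 := T_unif b hS.odd (k + 2) (by omega) (ih (by omega)) c hc
              rw [show k + 2 - 1 = k + 1 by omega, hvZ] at h7
              have h8 : (2 : ℤ) ^ v = 2 ^ (k + 1) * 2 ^ (v - (k + 1)) := by
                rw [← pow_add]
                congr 1
                omega
              rw [h8] at h7
              have h9 : T b (k + 2) c = 2 * (2 ^ (v - (k + 1)) * q) := by
                have : (2 : ℤ) ^ (k + 1) ≠ 0 := by positivity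
                apply mul_left_cancel₀ this
                rw [h7]
                ring
              rw [h9]
              exact even_two_mul _
      refine step_odd hS hmo hv2 le_rfl (hP v (by omega) le_rfl (v + 2) (by omega) le_rfl) ?_
      intro c hc
      have h7 := T_unif b hS.odd (v + 2) (by omega) (hP v (by omega) le_rfl) c hc
      rw [show v + 2 - 1 = v + 1 by omega, hvZ] at h7
      have h9 : T b (v + 2) c = q := by
        have : (2 : ℤ) ^ (v + 1) ≠ 0 := by positivity
        apply mul_left_cancel₀ this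
        rw [h7]
        ring
      rw [h9]
      exact_mod_cast hq
    · refine level4 (key 4 ?_) hm le_rfl hU ?_
      · obtain ⟨q, hq⟩ : ∃ q, m + 1 = 2 * q := by
          have := Nat.odd_iff.1 hmo
          exact ⟨(m + 1) / 2, by omega⟩
        rw [hq]
        exact ⟨q * ((2 * q) ^ 2 + 2), by ring⟩
      · intro c hc
        have h1 := hT3 c hc
        rw [Int.odd_iff]
        have := Nat.odd_iff.1 hmo
        omega
  · refine ⟨?_, s, hs⟩
    intro h4
    have h1 : s % 4 = 0 ∨ s % 4 = 1 ∨ s % 4 = 2 ∨ s % 4 = 3 := by omega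
    have h2 : (3 * (m + 1)) % 4 = 0 := by omega
    rw [hs] at h2
    rcases h1 with h1 | h1 | h1 | h1 <;> simp [Nat.add_mod, Nat.pow_mod, h1] at h2

/-- the theorem for sets -/
theorem main {n : ℕ} [NeZero n] (A : Finset (ZMod n)) (hA : Tight 7 A) (h3 : 3 ≤ A.card) :
    ¬ 4 ∣ A.card ∧ ∃ s : ℕ, 3 * A.card = s ^ 2 + 2 := by
  obtain ⟨hI, hG⟩ := hA
  obtain ⟨a, ha⟩ := fam_rel 7 A hI
  obtain ⟨m, hm⟩ : ∃ m, A.card = m + 1 := ⟨A.card - 1, by omega⟩
  clear hI
  revert a
  generalize A.card = k at *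
  subst hm
  intro a ha
  exact family a ha hG (by omega)

end TightIndep.T7
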