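import Pool.Agent.Lib.MP_f31b39_co.Defs

/-!
# T7-Bd: the number `b(m, 7)`, and a power of three
-/

namespace TightIndep.T7

open Finset

private theorem two_choose_two (n : ℕ) : 2 * (n + 2).choose 2 = (n + 2) * (n + 1) := by
  induction n with
  | zero => decide
  | succ n ih =>
    have h1 : (n + 1 + 2).choose 2 = (n + 2).choose 1 + (n + 2).choose 2 := Nat.choose_succ_succ _ _
    rw [h1, mul_add, ih, Nat.choose_one_right]
    ring

private theorem six_choose_three (n : ℕ) : 6 * (n + 2).choose 3 = (n + 2) * (n + 1) * n := by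
  induction n with
  | zero => decide
  | succ n ih =>
    have h1 : (n + 1 + 2).choose 3 = (n + 2).choose 2 + (n + 2).choose 3 := Nat.choose_succ_succ _ _
    have h2 := two_choose_two n
    rw [h1, mul_add, ih]
    linear_combination 3 * h2

theorem three_bound (m : ℕ) (hm : 1 ≤ m) : 3 * bound m 7 = 8 * m * (m ^ 2 + 2) := by
  obtain h | h | h | ⟨n, rfl⟩ : m = 1 ∨ m = 2 ∨ m = 3 ∨ ∃ n, m = n + 4 := by
    rcases lt_or_ge m 4 with h | h
    · interval_cases m <;> simp
    · exact Or.inr (Or.inr (Or.inr ⟨m - 4, by omega⟩))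
  · subst h; decide
  · subst h; decide
  · subst h; decide
  have hodd : ¬ Even 7 := by decide
  have hsum : bound (n + 4) 7 = ∑ i ∈ Finset.Icc 1 4, (n + 3).choose (i - 1) * (4 : ℕ).choose i * 2 ^ i := by
    unfold bound
    rw [if_neg hodd]
    refine (Finset.sum_subset (Finset.Icc_subset_Icc_right (by omega)) fun i hi hi' => ?_).symm
    rw [Finset.mem_Icc] at hi hi'
    have h4 : 4 < i := by omega
    have : ((7 + 1) / 2 : ℕ).choose i = 0 := Nat.choose_eq_zero_of_lt h4
    rw [this]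
    simp
  have h1 : ∑ i ∈ Finset.Icc 1 4, (n + 3).choose (i - 1) * (4 : ℕ).choose i * 2 ^ i =
      8 + 24 * (n + 3) + 32 * (n + 3).choose 2 + 16 * (n + 3).choose 3 := by
    rw [show Finset.Icc 1 4 = {1, 2, 3, 4} from rfl]
    simp only [Finset.sum_insert (show (1 : ℕ) ∉ ({2, 3, 4} : Finset ℕ) by decide),
      Finset.sum_insert (show (2 : ℕ) ∉ ({3, 4} : Finset ℕ) by decide),
      Finset.sum_insert (show (3 : ℕ) ∉ ({4} : Finset ℕ) by decide), Finset.sum_singleton]
    norm_num [show (4 : ℕ).choose 2 = 6 from rfl, show (4 : ℕ).choose 3 = 4 from rfl]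
    ring
  have h2 := two_choose_two (n + 1)
  have h3 := six_choose_three (n + 1)
  rw [hsum, h1]
  rw [show n + 1 + 2 = n + 3 from rfl] at h2 h3
  linear_combination 48 * h2 + 8 * h3

private theorem three_pow_aux (k : ℕ) (hk : 1 ≤ k) :
    ∃ q : ℕ, 3 ^ (2 ^ k) = 1 + 2 ^ (k + 2) + 2 ^ (k + 3) * q := by
  induction k, hk using Nat.le_induction with
  | base => exact ⟨0, by norm_num⟩
  | succ k _ ih =>
    obtain ⟨q, hq⟩ := ih
    refine ⟨q + 2 ^ k * (1 + 2 * q) ^ 2, ?_⟩
    rw [pow_succ, pow_mul, hq]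
    ring

theorem three_pow (k : ℕ) (hk : 1 ≤ k) : 3 ^ (2 ^ k) ≡ 1 + 2 ^ (k + 2) [MOD 2 ^ (k + 3)] := by
  obtain ⟨q, hq⟩ := three_pow_aux k hk
  rw [hq]
  exact Nat.add_mul_mod_self_left _ _ _

end TightIndep.T7
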