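import Mathlib

/-!
# T7-Lin: linear independence of `1, ω, ..., ω^(2^(r-1)-1)`, and integrality
-/

namespace TightIndep.T7

open Finset

private theorem li_int (ω : ℂ) (hω : IsIntegral ℤ ω) (v : ℕ → ℤ) (N : ℕ) :
    IsIntegral ℤ (∑ c ∈ range N, (v c : ℂ) * ω ^ c) := by
  refine IsIntegral.sum _ fun c _ => ?_
  have h1 : IsIntegral ℤ ((v c : ℤ) : ℂ) := by
    simpa using (isIntegral_algebraMap : IsIntegral ℤ (algebraMap ℤ ℂ (v c)))
  exact h1.mul (hω.pow c)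

theorem lin (r : ℕ) (hr : 1 ≤ r) (ω : ℂ) (hω : IsPrimitiveRoot ω (2 ^ r)) (u : ℕ → ℤ)
    (h : ∑ c ∈ range (2 ^ (r - 1)), (u c : ℂ) * ω ^ c = 0) : ∀ c < 2 ^ (r - 1), u c = 0 := by
  classical
  have hpos : 0 < 2 ^ r := by positivity
  have hint : IsIntegral ℤ ω := hω.isIntegral hpos
  set P : Polynomial ℤ := ∑ c ∈ range (2 ^ (r - 1)), Polynomial.C (u c) * Polynomial.X ^ c with hP
  have hae : Polynomial.aeval ω P = 0 := by
    rw [hP, map_sum, ← h]
    refine Finset.sum_congr rfl fun c _ => ?_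
    simp
  have hdvd : Polynomial.cyclotomic (2 ^ r) ℤ ∣ P := by
    rw [Polynomial.cyclotomic_eq_minpoly hω hpos]
    exact minpoly.isIntegrallyClosed_dvd hint hae
  have hdeg : P.degree < (Polynomial.cyclotomic (2 ^ r) ℤ).degree := by
    rw [Polynomial.degree_cyclotomic, Nat.totient_prime_pow Nat.prime_two (by omega)]
    simp only [Nat.add_one_sub_one, mul_one]
    rw [Polynomial.degree_lt_iff_coeff_zero]
    intro m hm
    rw [hP, Polynomial.finsetSum_coeff]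
    refine Finset.sum_eq_zero fun c hc => ?_
    rw [Polynomial.coeff_C_mul_X_pow, if_neg]
    rw [Finset.mem_range] at hc
    omega
  have hP0 : P = 0 := Polynomial.eq_zero_of_dvd_of_degree_lt hdvd hdeg
  intro c hc
  have h1 : P.coeff c = u c := by
    rw [hP, Polynomial.finsetSum_coeff, Finset.sum_eq_single c]
    · rw [Polynomial.coeff_C_mul_X_pow, if_pos rfl]
    · intro b _ hb
      rw [Polynomial.coeff_C_mul_X_pow, if_neg (fun h => hb h.symm)]
    · intro hcc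
      exact absurd (Finset.mem_range.2 hc) hcc
  rw [← h1, hP0, Polynomial.coeff_zero]

theorem int_half (r : ℕ) (ω : ℂ) (hω : IsPrimitiveRoot ω (2 ^ r)) (u : ℕ → ℤ)
    (hu : ∀ c < 2 ^ (r - 1), Even (u c)) :
    IsIntegral ℤ ((∑ c ∈ range (2 ^ (r - 1)), (u c : ℂ) * ω ^ c) / 2) := by
  have hint : IsIntegral ℤ ω := hω.isIntegral (by positivity)
  have h1 : (∑ c ∈ range (2 ^ (r - 1)), (u c : ℂ) * ω ^ c) / 2 =
      ∑ c ∈ range (2 ^ (r - 1)), ((u c / 2 : ℤ) : ℂ) * ω ^ c := by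
    rw [Finset.sum_div]
    refine Finset.sum_congr rfl fun c hc => ?_
    obtain ⟨k, hk⟩ := hu c (Finset.mem_range.1 hc)
    have h2 : u c / 2 = k := by omega
    rw [h2, hk]
    push_cast
    ring
  rw [h1]
  exact li_int ω hint _ _

private theorem li_odd (ω : ℂ) (N : ℕ) :
    (1 - ω ^ 2) * ∑ c ∈ range (2 * N), (if Odd c then ω ^ c else 0) = ω * (1 - ω ^ (2 * N)) := by
  induction N with
  | zero => simp
  | succ N ih =>
    have h1 : 2 * (N + 1) = 2 * N + 1 + 1 := by ring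
    rw [h1, Finset.sum_range_succ, Finset.sum_range_succ, mul_add, mul_add, ih]
    have h2 : ¬ Odd (2 * N) := by simp
    have h3 : Odd (2 * N + 1) := ⟨N, rfl⟩
    rw [if_neg h2, if_pos h3]
    ring

theorem int_odd (r : ℕ) (hr : 2 ≤ r) (ω : ℂ) (hω : IsPrimitiveRoot ω (2 ^ r)) (u : ℕ → ℤ)
    (hu : ∀ c < 2 ^ (r - 1), (Odd c → Odd (u c)) ∧ (Even c → Even (u c))) :
    IsIntegral ℤ ((1 - ω ^ 2) * (∑ c ∈ range (2 ^ (r - 1)), (u c : ℂ) * ω ^ c) / 2) := by
  have hint : IsIntegral ℤ ω := hω.isIntegral (by positivity)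
  have hN : 2 ^ (r - 1) = 2 * 2 ^ (r - 2) := by
    rw [← pow_succ']
    congr 1
    omega
  have hN2 : 2 ^ r = 2 ^ (r - 1) * 2 := by
    rw [← pow_succ]
    congr 1
    omega
  -- `ω ^ (2 ^ (r - 1)) = -1`
  have hm : ω ^ (2 ^ (r - 1)) = -1 := by
    have h1 : (ω ^ (2 ^ (r - 1))) ^ 2 = 1 := by
      rw [← pow_mul, ← hN2]
      exact hω.pow_eq_one
    have h1' : (ω ^ (2 ^ (r - 1)) - 1) * (ω ^ (2 ^ (r - 1)) + 1) = 0 := by linear_combination h1
    rcases mul_eq_zero.1 h1' with h2 | h2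
    · have h3 := hω.dvd_of_pow_eq_one _ (sub_eq_zero.1 h2)
      have h4 := Nat.le_of_dvd (by positivity) h3
      have h5 : 0 < 2 ^ (r - 1) := by positivity
      omega
    · exact eq_neg_of_add_eq_zero_left h2
  have h1 : ∑ c ∈ range (2 ^ (r - 1)), (u c : ℂ) * ω ^ c =
      2 * ∑ c ∈ range (2 ^ (r - 1)), ((u c / 2 : ℤ) : ℂ) * ω ^ c +
        ∑ c ∈ range (2 ^ (r - 1)), (if Odd c then ω ^ c else 0) := by
    rw [Finset.mul_sum, ← Finset.sum_add_distrib]
    refine Finset.sum_congr rfl fun c hc => ?_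
    obtain ⟨ho, he⟩ := hu c (Finset.mem_range.1 hc)
    by_cases hodd : Odd c
    · obtain ⟨k, hk⟩ := ho hodd
      have h2 : u c / 2 = k := by omega
      rw [h2, hk, if_pos hodd]
      push_cast
      ring
    · obtain ⟨k, hk⟩ := he (Nat.not_odd_iff_even.1 hodd)
      have h2 : u c / 2 = k := by omega
      rw [h2, hk, if_neg hodd]
      push_cast
      ring
  have h2 : (1 - ω ^ 2) * (∑ c ∈ range (2 ^ (r - 1)), (u c : ℂ) * ω ^ c) / 2 =
      (1 - ω ^ 2) * (∑ c ∈ range (2 ^ (r - 1)), ((u c / 2 : ℤ) : ℂ) * ω ^ c) + ω := by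
    have h3 := li_odd ω (2 ^ (r - 2))
    rw [← hN, hm] at h3
    rw [h1, mul_add, h3]
    ring
  rw [h2]
  have h4 : IsIntegral ℤ (1 - ω ^ 2) := isIntegral_one.sub (hint.pow 2)
  exact (h4.mul (li_int ω hint _ _)).add hint

end TightIndep.T7
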