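import Pool.Agent.Lib.MP_f31b39_co.T7.Tab

/-!
# T7-SumU: character sums and fibre counts
-/

namespace TightIndep.T7

open Finset

variable {M : ℕ} (b : Fin M → ℤ)

private theorem zpow_eq_sum (r : ℕ) (ω : ℂ) (h0 : ω ≠ 0) (h1 : ω ^ (2 ^ r) = 1) (n : ℤ) :
    ω ^ n = ∑ c ∈ range (2 ^ r), ((if (2 ^ r : ℤ) ∣ n - c then (1 : ℤ) else 0 : ℤ) : ℂ) * ω ^ c := by
  have hpos : (0 : ℤ) < 2 ^ r := by positivity
  have hnn : 0 ≤ n % 2 ^ r := Int.emod_nonneg _ hpos.ne'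
  have hlt : n % 2 ^ r < 2 ^ r := Int.emod_lt_of_pos _ hpos
  obtain ⟨k, hk⟩ : ∃ k : ℕ, (k : ℤ) = n % 2 ^ r := ⟨(n % 2 ^ r).toNat, Int.toNat_of_nonneg hnn⟩
  have hk2 : k < 2 ^ r := by
    have : (k : ℤ) < ((2 ^ r : ℕ) : ℤ) := by rw [hk]; push_cast; exact hlt
    exact_mod_cast this
  have hdvd : (2 ^ r : ℤ) ∣ n - k := by
    rw [hk]
    exact Int.dvd_self_sub_emod
  rw [Finset.sum_eq_single k]
  · rw [if_pos hdvd]
    obtain ⟨q, hq⟩ := hdvd
    have hn : n = 2 ^ r * q + k := by linarith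
    rw [hn, zpow_add₀ h0, zpow_mul, zpow_natCast]
    have h2 : ω ^ (2 ^ r : ℤ) = 1 := by
      have h3 : ((2 ^ r : ℕ) : ℤ) = (2 ^ r : ℤ) := by push_cast; rfl
      rw [← h3, zpow_natCast, h1]
    rw [h2, one_zpow]
    simp
  · intro c hc hck
    rw [if_neg]
    · simp
    · intro h
      apply hck
      have hc2 : c < 2 ^ r := Finset.mem_range.1 hc
      have h3 : (2 ^ r : ℤ) ∣ (c : ℤ) - k := by
        have h4 := dvd_sub hdvd h
        have h5 : n - (k : ℤ) - (n - c) = c - k := by ring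
        rwa [h5] at h4
      have h6 : ((2 ^ r : ℕ) : ℤ) = (2 ^ r : ℤ) := by push_cast; rfl
      rw [← h6] at h3
      have h7 : (c : ℤ) - k = 0 := by
        apply Int.eq_zero_of_abs_lt_dvd h3
        rw [abs_lt]
        constructor <;> omega
      omega
  · intro h
    exact absurd (Finset.mem_range.2 hk2) h

theorem sum_U (r : ℕ) (hr : 1 ≤ r) (ω : ℂ) (hω : ω ^ (2 ^ (r - 1)) = -1) :
    ∑ i, (ω ^ b i + ω⁻¹ ^ b i) = ∑ c ∈ range (2 ^ (r - 1)), (U b r c : ℂ) * ω ^ c := by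
  have h0 : ω ≠ 0 := by
    rintro rfl
    rw [zero_pow (by positivity)] at hω
    norm_num at hω
  have h2 : 2 ^ r = 2 ^ (r - 1) + 2 ^ (r - 1) := by
    obtain ⟨s, rfl⟩ : ∃ s, r = s + 1 := ⟨r - 1, by omega⟩
    rw [Nat.add_sub_cancel, pow_succ]
    ring
  have h1 : ω ^ (2 ^ r) = 1 := by
    rw [h2, pow_add, hω]
    norm_num
  have key : ∑ i, (ω ^ b i + ω⁻¹ ^ b i) = ∑ c ∈ range (2 ^ r), (T b r c : ℂ) * ω ^ c := by
    have h3 : ∀ i, ω ^ b i + ω⁻¹ ^ b i = ∑ c ∈ range (2 ^ r),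
        (((if (2 ^ r : ℤ) ∣ b i - c then (1 : ℤ) else 0) +
          (if (2 ^ r : ℤ) ∣ b i + c then (1 : ℤ) else 0) : ℤ) : ℂ) * ω ^ c := by
      intro i
      rw [inv_zpow', zpow_eq_sum r ω h0 h1 (b i), zpow_eq_sum r ω h0 h1 (-b i), ← Finset.sum_add_distrib]
      refine Finset.sum_congr rfl fun c _ => ?_
      have h4 : ((2 ^ r : ℤ) ∣ -b i - c) ↔ ((2 ^ r : ℤ) ∣ b i + c) := by
        rw [← dvd_neg]
        have h5 : -(-b i - (c : ℤ)) = b i + c := by ring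
        rw [h5]
      rw [Int.cast_add, add_mul]
      simp only [h4]
    rw [Finset.sum_congr rfl fun i _ => h3 i, Finset.sum_comm]
    refine Finset.sum_congr rfl fun c _ => ?_
    rw [← Finset.sum_mul, T, Int.cast_sum]
  rw [key, h2, Finset.sum_range_add, ← Finset.sum_add_distrib]
  refine Finset.sum_congr rfl fun c _ => ?_
  rw [U, pow_add, hω]
  push_cast
  have h6 : (2 ^ (r - 1) : ℤ) + c = c + 2 ^ (r - 1) := by ring
  rw [h6]
  ring

end TightIndep.T7
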