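import Pool.Agent.Lib.MP_f31b39_co.T7.Alg
import Pool.Agent.Lib.MP_f31b39_co.T7.SumU
import Pool.Agent.Lib.MP_f31b39_co.T7.Lin
import Pool.Agent.Lib.MP_f31b39_co.T7.Bd

/-!
# T7-Sys: the system of equations of the fibre counts, and the levels
-/

namespace TightIndep.T7

open Finset

/-- the character sum of the family -/
noncomputable def tau {M : ℕ} (b : Fin M → ℤ) (ω : ℂ) : ℂ := ∑ i, (ω ^ b i + ω⁻¹ ^ b i)

/-- the equations of the characters of order `2 ^ r`, `2 ≤ r ≤ N` -/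
structure Sys (m N : ℕ) (b : Fin (m + 1) → ℤ) : Prop where
  odd : ∀ i, Odd (b i)
  eq : ∀ r, 2 ≤ r → r ≤ N → ∀ ω : ℂ, IsPrimitiveRoot ω (2 ^ r) →
    2 * tau b (ω ^ 3) + 3 * tau b ω * tau b (ω ^ 2) + tau b ω ^ 3 = 6 * (m : ℂ) * tau b ω

variable {m N : ℕ} {b : Fin (m + 1) → ℤ}

theorem pow_half {r : ℕ} (hr : 1 ≤ r) {ω : ℂ} (hω : IsPrimitiveRoot ω (2 ^ r)) :
    ω ^ (2 ^ (r - 1)) = -1 := by
  obtain ⟨q, rfl⟩ : ∃ q, r = q + 1 := ⟨r - 1, by omega⟩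
  rw [Nat.add_sub_cancel]
  have h1 : (ω ^ 2 ^ q) ^ 2 = 1 := by
    rw [← pow_mul, ← pow_succ, hω.pow_eq_one]
  rw [pow_two] at h1
  rcases mul_self_eq_one_iff.1 h1 with h2 | h2
  · exfalso
    have h3 := (hω.pow_eq_one_iff_dvd (2 ^ q)).1 h2
    have h4 := Nat.le_of_dvd (by positivity) h3
    have h5 : 2 ^ q < 2 ^ (q + 1) := Nat.pow_lt_pow_right (by norm_num) (by omega)
    omega
  · exact h2

theorem exists_root (r : ℕ) : ∃ ω : ℂ, IsPrimitiveRoot ω (2 ^ r) :=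
  ⟨_, Complex.isPrimitiveRoot_exp (2 ^ r) (by positivity)⟩

/-- `U b r` is antiperiodic -/
theorem U_anti (b : Fin (m + 1) → ℤ) (r : ℕ) (hr : 1 ≤ r) (c : ℤ) :
    U b r (c + 2 ^ (r - 1)) = - U b r c := by
  unfold U
  have h : c + 2 ^ (r - 1) + 2 ^ (r - 1) = c + 2 ^ r := by
    obtain ⟨q, rfl⟩ : ∃ q, r = q + 1 := ⟨r - 1, by omega⟩
    rw [Nat.add_sub_cancel]
    ring
  rw [h, T_per]
  ring

theorem U_zero_of_range (b : Fin (m + 1) → ℤ) (r : ℕ) (hr : 1 ≤ r)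
    (h : ∀ c : ℕ, c < 2 ^ (r - 1) → U b r c = 0) : ∀ c : ℤ, U b r c = 0 := by
  have h1 : ∀ (q : ℤ) (c : ℤ), U b r c = 0 → U b r (c + q * 2 ^ (r - 1)) = 0 := by
    intro q
    induction q using Int.induction_on with
    | zero => intro c hc; simpa using hc
    | succ i ih =>
      intro c hc
      have h2 := ih c hc
      rw [show c + ((i : ℤ) + 1) * 2 ^ (r - 1) = c + (i : ℤ) * 2 ^ (r - 1) + 2 ^ (r - 1) by ring,
        U_anti b r hr, h2, neg_zero]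
    | pred i ih =>
      intro c hc
      have h2 := ih c hc
      have h3 := U_anti b r hr (c + (-(i : ℤ) - 1) * 2 ^ (r - 1))
      rw [show c + (-(i : ℤ) - 1) * 2 ^ (r - 1) + 2 ^ (r - 1) = c + (-(i : ℤ)) * 2 ^ (r - 1) by ring,
        h2] at h3
      linarith
  intro c
  have hpos : (0 : ℤ) < 2 ^ (r - 1) := by positivity
  have h2 := Int.emod_add_mul_ediv c (2 ^ (r - 1))
  have h3 := Int.emod_nonneg c hpos.ne'
  have h4 := Int.emod_lt_of_pos c hpos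
  obtain ⟨k, hk⟩ := Int.eq_ofNat_of_zero_le h3
  rw [← h2, mul_comm, hk]
  apply h1
  apply h
  rw [hk] at h4
  exact_mod_cast h4

theorem tau_eq (b : Fin (m + 1) → ℤ) {r : ℕ} (hr : 1 ≤ r) {ω : ℂ}
    (hω : IsPrimitiveRoot ω (2 ^ r)) :
    tau b ω = ∑ c ∈ range (2 ^ (r - 1)), (U b r c : ℂ) * ω ^ c :=
  sum_U b r hr ω (pow_half hr hω)

theorem tau_zero (b : Fin (m + 1) → ℤ) {r : ℕ} (hr : 1 ≤ r) {ω : ℂ}
    (hω : IsPrimitiveRoot ω (2 ^ r)) (h : ∀ c, U b r c = 0) : tau b ω = 0 := by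
  rw [tau_eq b hr hω]
  apply Finset.sum_eq_zero
  intro c _
  rw [h c]
  simp

theorem U_zero_of_tau (b : Fin (m + 1) → ℤ) {r : ℕ} (hr : 1 ≤ r) {ω : ℂ}
    (hω : IsPrimitiveRoot ω (2 ^ r)) (h : tau b ω = 0) : ∀ c, U b r c = 0 := by
  rw [tau_eq b hr hω] at h
  exact U_zero_of_range b r hr (lin r hr ω hω (fun c => U b r c) h)

theorem tau_neg (h : ∀ i, Odd (b i)) (ω : ℂ) : tau b (-ω) = - tau b ω := by
  unfold tau
  rw [← Finset.sum_neg_distrib]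
  refine Finset.sum_congr rfl fun i _ => ?_
  rw [inv_neg, (h i).neg_zpow, (h i).neg_zpow]
  ring

theorem root_pow {r : ℕ} {ω : ℂ} (hω : IsPrimitiveRoot ω (2 ^ r)) (j : ℕ) :
    IsPrimitiveRoot (ω ^ 3 ^ j) (2 ^ r) := by
  apply hω.pow_of_coprime
  exact Nat.Coprime.pow _ _ (by norm_num)

/-- the recurrence at level `r` if level `r - 1` is uniform -/
theorem rec (hS : Sys m N b) {r : ℕ} (hr : 3 ≤ r) (hN : r ≤ N) (hU : ∀ c, U b (r - 1) c = 0)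
    {ω : ℂ} (hω : IsPrimitiveRoot ω (2 ^ r)) (j : ℕ) :
    2 * tau b (ω ^ 3 ^ (j + 1)) =
      2 * ((3 * m : ℤ) : ℂ) * tau b (ω ^ 3 ^ j) - tau b (ω ^ 3 ^ j) ^ 3 := by
  have h1 := hS.eq r (by omega) hN _ (root_pow hω j)
  have h2 : IsPrimitiveRoot ((ω ^ 3 ^ j) ^ 2) (2 ^ (r - 1)) := by
    apply (root_pow hω j).pow (by positivity)
    rw [← pow_succ']
    congr 1
    omega
  rw [tau_zero b (by omega) h2 hU, ← pow_mul, ← pow_succ] at h1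
  push_cast
  linear_combination h1

theorem anti (hS : Sys m N b) {k : ℕ} (hk : 1 ≤ k) {ω : ℂ} (hω : IsPrimitiveRoot ω (2 ^ (k + 3))) :
    tau b (ω ^ 3 ^ (2 ^ k)) = - tau b (ω ^ 3 ^ 0) := by
  have h1 := three_pow k hk
  have h2 : ω ^ 3 ^ (2 ^ k) = ω ^ (1 + 2 ^ (k + 2)) := by
    rw [← pow_mod_orderOf, ← hω.eq_orderOf, h1, hω.eq_orderOf, pow_mod_orderOf]
  have h3 := pow_half (by omega) hω
  rw [show k + 3 - 1 = k + 2 by omega] at h3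
  rw [h2, pow_add, h3, pow_one, mul_neg_one, tau_neg hS.odd, pow_zero, pow_one]

end TightIndep.T7
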