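import Pool.Agent.Lib.MP_f31b39_co.T7.Core

/-!
# T7-Alg: the two cases (algebraic integers)
-/

namespace TightIndep.T7

private theorem dvd_of_integral {p c : ℤ} (hp : p ≠ 0) {γ : ℂ} (hγ : IsIntegral ℤ γ)
    (h : (c : ℂ) = p * γ) : p ∣ c := by
  have hp' : (p : ℂ) ≠ 0 := by exact_mod_cast hp
  have h1 : γ = algebraMap ℚ ℂ ((c : ℚ) / p) := by
    have : algebraMap ℚ ℂ ((c : ℚ) / p) = (c : ℂ) / p := by
      simp
    rw [this, h]
    field_simp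
  rw [h1] at hγ
  have h2 : IsIntegral ℤ ((c : ℚ) / p) :=
    (isIntegral_algebraMap_iff (algebraMap ℚ ℂ).injective).1 hγ
  obtain ⟨y, hy⟩ := IsIntegrallyClosed.isIntegral_iff.1 h2
  refine ⟨y, ?_⟩
  have hpq : (p : ℚ) ≠ 0 := by exact_mod_cast hp
  have h3 : (c : ℚ) = p * y := by
    have h4 : (y : ℚ) = (c : ℚ) / p := by simpa using hy
    rw [h4]
    field_simp
  exact_mod_cast h3

private theorem half_odd {a : ℤ} (ha : Odd a) {k : ℕ} (hk : 1 ≤ k) :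
    ∃ c : ℤ, Odd c ∧ a ^ (2 ^ k) + 1 = 2 * c := by
  obtain ⟨j, rfl⟩ := Nat.exists_eq_add_of_le' hk
  obtain ⟨b, hb⟩ := ha.pow (n := 2 ^ j)
  refine ⟨2 * b * (b + 1) + 1, ⟨b * (b + 1), by ring⟩, ?_⟩
  rw [pow_succ, pow_mul, hb]
  ring

/-- `core` over the complex numbers -/
private theorem coreC (a : ℤ) (ha : Odd a) (κ : ℂ) (hκ : IsIntegral ℤ κ) (k : ℕ) (z : ℕ → ℂ)
    (hz : IsIntegral ℤ (z 0)) (hrec : ∀ j, z (j + 1) = z j * ((a : ℂ) - κ * z j ^ 2))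
    (hh : z (2 ^ k) = - z 0) (h0 : z 0 ≠ 0) :
    ∃ α β : ℂ, IsIntegral ℤ α ∧ IsIntegral ℤ β ∧
      (a : ℂ) ^ (2 ^ k) + 1 = κ * 2 ^ k * α + κ ^ 2 * β := by
  have haI : IsIntegral ℤ (a : ℂ) := isIntegral_algebraMap (R := ℤ) (A := ℂ) (x := a)
  have hI : ∀ j, IsIntegral ℤ (z j) := by
    intro j
    induction j with
    | zero => exact hz
    | succ j ih =>
      rw [hrec]
      exact ih.mul (haI.sub (hκ.mul (ih.pow 2)))
  let R := integralClosure ℤ ℂ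
  let zR : ℕ → R := fun j => ⟨z j, hI j⟩
  let κR : R := ⟨κ, hκ⟩
  have hrecR : ∀ j, zR (j + 1) = zR j * ((a : R) - κR * zR j ^ 2) := by
    intro j
    apply Subtype.ext
    have := hrec j
    simpa [zR, κR] using this
  have hhR : zR (2 ^ k) = - zR 0 := by
    apply Subtype.ext
    simpa [zR] using hh
  have h0R : zR 0 ≠ 0 := by
    intro h
    apply h0
    have := congrArg Subtype.val h
    simpa [zR] using this
  obtain ⟨α, β, h⟩ := core a ha κR k zR hrecR hhR h0R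
  refine ⟨α.1, β.1, α.2, β.2, ?_⟩
  have h1 := congrArg (algebraMap R ℂ) h
  rw [map_add, map_add, map_mul, map_mul, map_mul, map_pow, map_pow, map_pow, map_intCast, map_one,
    map_ofNat] at h1
  exact h1

theorem even_case (a : ℤ) (ha : Odd a) (k : ℕ) (hk : 1 ≤ k) (x : ℕ → ℂ)
    (hx : IsIntegral ℤ (x 0 / 2)) (hrec : ∀ j, 2 * x (j + 1) = 2 * (a : ℂ) * x j - x j ^ 3)
    (hh : x (2 ^ k) = - x 0) : x 0 = 0 := by
  by_contra h0
  have h2I : IsIntegral ℤ (2 : ℂ) := by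
    simpa using isIntegral_algebraMap (R := ℤ) (A := ℂ) (x := 2)
  obtain ⟨α, β, hα, hβ, h⟩ := coreC a ha 2 h2I k (fun j => x j / 2) hx
    (fun j => by
      have h1 := hrec j
      show x (j + 1) / 2 = x j / 2 * ((a : ℂ) - 2 * (x j / 2) ^ 2)
      linear_combination (1 / 4 : ℂ) * h1)
    (by
      show x (2 ^ k) / 2 = - (x 0 / 2)
      rw [hh]
      ring)
    (by
      show x 0 / 2 ≠ 0
      exact div_ne_zero h0 two_ne_zero)
  obtain ⟨c, hc, hac⟩ := half_odd ha hk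
  obtain ⟨j, rfl⟩ := Nat.exists_eq_add_of_le' hk
  have h3 : (c : ℂ) = (2 : ℤ) * (2 ^ j * α + β) := by
    have h4 : ((a : ℂ)) ^ (2 ^ (j + 1)) + 1 = 2 * c := by exact_mod_cast hac
    rw [h4] at h
    push_cast
    linear_combination (1 / 2 : ℂ) * h
  have h5 := dvd_of_integral two_ne_zero (((h2I.pow j).mul hα).add hβ) h3
  exact (Int.not_even_iff_odd.2 hc) (even_iff_two_dvd.2 h5)

private theorem int_one_sub {k : ℕ} {η : ℂ} (hη : η ^ (2 ^ (k + 1)) = -1) (hI : IsIntegral ℤ η) :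
    ∀ i, i ≤ k + 1 → IsIntegral ℤ ((1 - η ^ (2 ^ i)) / (1 - η) ^ (2 ^ i)) := by
  have hne : ∀ i, i ≤ k + 1 → η ^ (2 ^ i) ≠ 1 := by
    intro i hi h
    have h1 : η ^ (2 ^ (k + 1)) = 1 := by
      obtain ⟨d, hd⟩ := Nat.exists_eq_add_of_le hi
      rw [hd, pow_add, pow_mul, h, one_pow]
    rw [hη] at h1
    norm_num at h1
  have hne1 : 1 - η ≠ 0 := by
    have := hne 0 (Nat.zero_le _)
    simp only [pow_zero, pow_one] at this
    exact sub_ne_zero.2 (Ne.symm this)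
  intro i
  induction i with
  | zero =>
    intro _
    simp only [pow_zero, pow_one]
    rw [div_self hne1]
    exact isIntegral_one
  | succ i ih =>
    intro hi
    have ih' := ih (by omega)
    set ξ := η ^ (2 ^ i) with hξ
    have hξ1 : ξ ≠ 1 := hne i (by omega)
    have hξ2 : 1 - ξ ≠ 0 := sub_ne_zero.2 (Ne.symm hξ1)
    have hξn : ξ ^ (2 ^ (k + 1 - i)) = -1 := by
      rw [hξ, ← pow_mul, ← pow_add, show i + (k + 1 - i) = k + 1 by omega, hη]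
    have hgeom : (1 + ξ) / (1 - ξ) = ∑ j ∈ Finset.range (2 ^ (k + 1 - i) + 1), ξ ^ j := by
      rw [div_eq_iff hξ2]
      have h1 := geom_sum_mul ξ (2 ^ (k + 1 - i) + 1)
      rw [pow_succ, hξn] at h1
      linear_combination h1
    have hint : IsIntegral ℤ ((1 + ξ) / (1 - ξ)) := by
      rw [hgeom]
      exact IsIntegral.sum _ fun j _ => (hI.pow _).pow _
    have heq : (1 - η ^ (2 ^ (i + 1))) / (1 - η) ^ (2 ^ (i + 1)) =
        ((1 - ξ) / (1 - η) ^ (2 ^ i)) ^ 2 * ((1 + ξ) / (1 - ξ)) := by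
      rw [pow_succ 2 i, pow_mul, pow_mul (1 - η), ← hξ]
      have h3 : (1 - η) ^ (2 ^ i) ≠ 0 := pow_ne_zero _ hne1
      field_simp
      ring
    rw [heq]
    exact (ih'.pow 2).mul hint

theorem odd_case (a : ℤ) (ha : Odd a) (k : ℕ) (hk : 2 ≤ k) (η : ℂ) (hη : η ^ (2 ^ (k + 1)) = -1)
    (x : ℕ → ℂ) (hx : IsIntegral ℤ ((1 - η) * x 0 / 2))
    (hrec : ∀ j, 2 * x (j + 1) = 2 * (a : ℂ) * x j - x j ^ 3)
    (hh : x (2 ^ k) = - x 0) : x 0 = 0 := by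
  by_contra h0
  have h2I : IsIntegral ℤ (2 : ℂ) := by
    simpa using isIntegral_algebraMap (R := ℤ) (A := ℂ) (x := 2)
  have hηI : IsIntegral ℤ η := by
    refine IsIntegral.of_pow (n := 2 ^ (k + 1)) (by positivity) ?_
    rw [hη]
    exact isIntegral_one.neg
  have hN : 0 < 2 ^ (k + 1) := by positivity
  obtain ⟨μ, hμ⟩ := IsAlgClosed.exists_pow_nat_eq (2 : ℂ) hN
  have hμI : IsIntegral ℤ μ := IsIntegral.of_pow hN (by rw [hμ]; exact h2I)
  have hμ0 : μ ≠ 0 := by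
    rintro rfl
    rw [zero_pow hN.ne'] at hμ
    exact two_ne_zero hμ.symm
  have hne1 : 1 - η ≠ 0 := by
    intro h
    have h1 : η = 1 := (sub_eq_zero.1 h).symm
    rw [h1, one_pow] at hη
    norm_num at hη
  have hνI : IsIntegral ℤ (μ / (1 - η)) := by
    refine IsIntegral.of_pow hN ?_
    rw [div_pow, hμ]
    have h1 := int_one_sub hη hηI (k + 1) le_rfl
    rw [hη] at h1
    have h2 : (1 : ℂ) - -1 = 2 := by norm_num
    rwa [h2] at h1
  obtain ⟨j, rfl⟩ := Nat.exists_eq_add_of_le' hk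
  -- `h = 2 ^ (j + 2) ≥ 4`
  set h : ℕ := 2 ^ (j + 2) with hhdef
  have hh4 : 4 ≤ h := by
    rw [hhdef, pow_add]
    have : 1 ≤ 2 ^ j := Nat.one_le_two_pow
    omega
  have h2h : 2 ^ (j + 2 + 1) = 2 * h := by rw [hhdef, pow_succ, mul_comm]
  rw [h2h] at hμ
  have hκμ : μ ^ (2 * h - 2) * μ ^ 2 = 2 := by
    rw [← pow_add, show 2 * h - 2 + 2 = 2 * h by omega, hμ]
  obtain ⟨α, β, hα, hβ, hcore⟩ := coreC a ha (μ ^ (2 * h - 2)) (hμI.pow _) (j + 2)
    (fun i => μ * x i / 2)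
    (by
      show IsIntegral ℤ (μ * x 0 / 2)
      have : μ * x 0 / 2 = μ / (1 - η) * ((1 - η) * x 0 / 2) := by
        field_simp
      rw [this]
      exact hνI.mul hx)
    (fun i => by
      have h1 := hrec i
      show μ * x (i + 1) / 2 = μ * x i / 2 * ((a : ℂ) - μ ^ (2 * h - 2) * (μ * x i / 2) ^ 2)
      have h2 : μ ^ (2 * h - 2) * (μ * x i / 2) ^ 2 = x i ^ 2 / 2 := by
        calc μ ^ (2 * h - 2) * (μ * x i / 2) ^ 2
            = (μ ^ (2 * h - 2) * μ ^ 2) * (x i ^ 2 / 4) := by ring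
          _ = x i ^ 2 / 2 := by rw [hκμ]; ring
      rw [h2]
      linear_combination (μ / 4) * h1)
    (by
      show μ * x (2 ^ (j + 2)) / 2 = - (μ * x 0 / 2)
      rw [hh]
      ring)
    (by
      show μ * x 0 / 2 ≠ 0
      exact div_ne_zero (mul_ne_zero hμ0 h0) two_ne_zero)
  obtain ⟨c, hc, hac⟩ := half_odd ha (show 1 ≤ j + 2 by omega)
  have h4 : ((a : ℂ)) ^ (2 ^ (j + 2)) + 1 = 2 * c := by exact_mod_cast hac
  rw [h4] at hcore
  -- `c = μ γ`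
  set γ : ℂ := μ ^ (2 * h - 5) * (μ ^ (2 * h + 2) * (2 ^ j * α) + β) with hγ
  have hγI : IsIntegral ℤ γ :=
    (hμI.pow _).mul (((hμI.pow _).mul ((h2I.pow j).mul hα)).add hβ)
  have h5 : (c : ℂ) = μ * γ := by
    have h6 : μ ^ (2 * h) * (c : ℂ) = μ ^ (2 * h) * (μ * γ) := by
      rw [hμ, hcore, hγ]
      have e1 : (2 : ℂ) ^ (j + 2) = (μ ^ (2 * h) * μ ^ (2 * h)) * 2 ^ j := by
        rw [hμ, pow_add]
        ring
      have e2 : (2 : ℂ) * (μ * (μ ^ (2 * h - 5) * (μ ^ (2 * h + 2) * (2 ^ j * α) + β))) =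
          μ ^ (2 * h) * (μ * (μ ^ (2 * h - 5) * (μ ^ (2 * h + 2) * (2 ^ j * α) + β))) := by
        rw [hμ]
      rw [e1, e2]
      obtain ⟨g, hg⟩ : ∃ g, h = g + 3 := ⟨h - 3, by omega⟩
      rw [hg, show 2 * (g + 3) - 2 = 2 * g + 4 by omega, show 2 * (g + 3) - 5 = 2 * g + 1 by omega]
      ring
    exact mul_left_cancel₀ (pow_ne_zero _ hμ0) h6
  have h7 : ((c ^ (2 * h) : ℤ) : ℂ) = (2 : ℤ) * γ ^ (2 * h) := by
    push_cast
    rw [h5, mul_pow, hμ]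
  have h8 := dvd_of_integral two_ne_zero (hγI.pow (2 * h)) h7
  have h9 := hc.pow (n := 2 * h)
  exact (Int.not_even_iff_odd.2 h9) (even_iff_two_dvd.2 h8)

end TightIndep.T7
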