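import Mathlib

/-!
# T7-Core: a product expansion in a domain
-/

namespace TightIndep.T7

open Finset

private theorem prod_exp {R : Type*} [CommRing R] (a κ : R) (w : ℕ → R) (n : ℕ) :
    ∃ β : R, ∏ j ∈ range (n + 1), (a - κ * w j) =
      a ^ (n + 1) - κ * a ^ n * ∑ j ∈ range (n + 1), w j + κ ^ 2 * β := by
  induction n with
  | zero => exact ⟨0, by simp⟩
  | succ n ih =>
    obtain ⟨β, hβ⟩ := ih
    refine ⟨a ^ n * (∑ j ∈ range (n + 1), w j) * w (n + 1) + β * a - κ * β * w (n + 1), ?_⟩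
    rw [prod_range_succ, hβ, sum_range_succ _ (n + 1)]
    ring

private theorem w_exp {R : Type*} [CommRing R] (a κ : R) (w : ℕ → R)
    (hw : ∀ j, w (j + 1) = w j * (a - κ * w j) ^ 2) (j : ℕ) :
    ∃ γ : R, w j = a ^ (2 * j) * w 0 + κ * γ := by
  induction j with
  | zero => exact ⟨0, by simp⟩
  | succ j ih =>
    obtain ⟨γ, hγ⟩ := ih
    refine ⟨γ * a ^ 2 - 2 * a * w j ^ 2 + κ * w j ^ 3, ?_⟩
    rw [hw]
    have h1 : w j * (a - κ * w j) ^ 2 = w j * a ^ 2 + κ * (- 2 * a * w j ^ 2 + κ * w j ^ 3) := by ring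
    rw [h1]
    have h2 : w j * a ^ 2 = (a ^ (2 * j) * w 0 + κ * γ) * a ^ 2 := by rw [← hγ]
    rw [h2]
    ring

private theorem geom (a : ℤ) (ha : Odd a) (k : ℕ) :
    ∃ s : ℤ, ∑ j ∈ range (2 ^ k), a ^ (2 * j) = 2 ^ k * s := by
  induction k with
  | zero => exact ⟨1, by simp⟩
  | succ k ih =>
    obtain ⟨s, hs⟩ := ih
    obtain ⟨t, ht⟩ : Even (1 + a ^ (2 * 2 ^ k)) := Odd.add_odd odd_one ha.pow
    refine ⟨t * s, ?_⟩
    rw [pow_succ 2 k, mul_two, sum_range_add]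
    have h1 : ∑ x ∈ range (2 ^ k), a ^ (2 * (2 ^ k + x)) = a ^ (2 * 2 ^ k) * ∑ x ∈ range (2 ^ k), a ^ (2 * x) := by
      rw [mul_sum]
      refine sum_congr rfl fun x _ => ?_
      rw [mul_add, pow_add]
    rw [h1, hs]
    have h2 : 2 ^ k * s + a ^ (2 * 2 ^ k) * (2 ^ k * s) = (1 + a ^ (2 * 2 ^ k)) * (2 ^ k * s) := by ring
    rw [h2, ht]
    ring

theorem core {R : Type*} [CommRing R] [IsDomain R] (a : ℤ) (ha : Odd a) (κ : R) (k : ℕ)
    (z : ℕ → R) (hrec : ∀ j, z (j + 1) = z j * ((a : R) - κ * z j ^ 2))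
    (hh : z (2 ^ k) = - z 0) (h0 : z 0 ≠ 0) :
    ∃ α β : R, (a : R) ^ (2 ^ k) + 1 = κ * 2 ^ k * α + κ ^ 2 * β := by
  have hprod : ∀ n, z n = z 0 * ∏ j ∈ range n, ((a : R) - κ * z j ^ 2) := by
    intro n
    induction n with
    | zero => simp
    | succ n ih => rw [prod_range_succ, hrec, ← mul_assoc, ← ih]
  have h1 : ∏ j ∈ range (2 ^ k), ((a : R) - κ * z j ^ 2) = -1 := by
    have h2 := hprod (2 ^ k)
    rw [hh] at h2
    have h3 : z 0 * (∏ j ∈ range (2 ^ k), ((a : R) - κ * z j ^ 2) + 1) = 0 := by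
      rw [mul_add, ← h2]; ring
    rcases mul_eq_zero.mp h3 with h4 | h4
    · exact absurd h4 h0
    · exact eq_neg_of_add_eq_zero_left h4
  obtain ⟨n, hn⟩ : ∃ n, 2 ^ k = n + 1 := ⟨2 ^ k - 1, (Nat.succ_pred_eq_of_pos (by positivity)).symm⟩
  obtain ⟨β, hβ⟩ := prod_exp (a : R) κ (fun j => z j ^ 2) n
  have hw : ∀ j, (fun j => z j ^ 2) (j + 1) = (fun j => z j ^ 2) j * ((a : R) - κ * (fun j => z j ^ 2) j) ^ 2 := by
    intro j
    show z (j + 1) ^ 2 = z j ^ 2 * ((a : R) - κ * z j ^ 2) ^ 2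
    rw [hrec]
    ring
  choose γ hγ using fun j => w_exp (a : R) κ (fun j => z j ^ 2) hw j
  obtain ⟨s, hs⟩ := geom a ha k
  have hsR : ∑ j ∈ range (n + 1), (a : R) ^ (2 * j) = 2 ^ k * (s : R) := by
    rw [← hn]
    have := congrArg (Int.cast : ℤ → R) hs
    push_cast at this
    exact this
  have hsum : ∑ j ∈ range (n + 1), z j ^ 2 = 2 ^ k * (s : R) * z 0 ^ 2 + κ * ∑ j ∈ range (n + 1), γ j := by
    rw [← hsR, sum_mul, mul_sum, ← sum_add_distrib]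
    exact sum_congr rfl fun j _ => hγ j
  rw [← hn] at hβ
  have hβ' : ∏ j ∈ range (2 ^ k), ((a : R) - κ * z j ^ 2) =
      (a : R) ^ (2 ^ k) - κ * (a : R) ^ n * ∑ j ∈ range (2 ^ k), z j ^ 2 + κ ^ 2 * β := hβ
  rw [h1, hn, hsum] at hβ'
  refine ⟨(a : R) ^ n * s * z 0 ^ 2, (a : R) ^ n * (∑ j ∈ range (n + 1), γ j) - β, ?_⟩
  rw [hn]
  linear_combination -hβ'

end TightIndep.T7
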