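import Pool.Agent.Lib.MP_f31b39_co.T7.Sys

/-!
# T7-Lev: the levels `r = 3`, `r = 4` and the two steps
-/

namespace TightIndep.T7

open Finset

variable {m N : ℕ} {b : Fin (m + 1) → ℤ}

/-- even step -/
theorem step_even (hS : Sys m N b) (hm : Odd m) {k : ℕ} (hk : 1 ≤ k) (hN : k + 3 ≤ N)
    (hU : ∀ c, U b (k + 2) c = 0) (hT : ∀ c, Even (T b (k + 2) c)) : ∀ c, U b (k + 3) c = 0 := by
  obtain ⟨ω, hω⟩ := exists_root (k + 3)
  apply U_zero_of_tau b (by omega) hω
  have h1 := even_case (3 * m : ℤ) (by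
      rw [Int.odd_mul]
      exact ⟨by decide, by exact_mod_cast hm⟩) k hk (fun j => tau b (ω ^ 3 ^ j)) ?_
    (fun j => rec hS (by omega) hN (by simpa using hU) hω j) (anti hS hk hω)
  · simpa using h1
  · simp only [pow_zero, pow_one]
    rw [tau_eq b (by omega) hω]
    apply int_half (k + 3) ω hω (fun c => U b (k + 3) c)
    intro c _
    have h2 := U_succ b (k + 2) c
    show Even (U b (k + 2 + 1) c)
    rw [h2]
    exact (hT c).sub (even_two_mul _)

/-- odd step -/
theorem step_odd (hS : Sys m N b) (hm : Odd m) {k : ℕ} (hk : 2 ≤ k) (hN : k + 3 ≤ N)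
    (hU : ∀ c, U b (k + 2) c = 0) (hT : ∀ c, Odd c → Odd (T b (k + 2) c)) : False := by
  obtain ⟨ω, hω⟩ := exists_root (k + 3)
  have hpar : ∀ c : ℤ, Odd c → Odd (U b (k + 3) c) := by
    intro c hc
    have h2 := U_succ b (k + 2) c
    show Odd (U b (k + 2 + 1) c)
    rw [h2]
    exact (hT c hc).sub_even (even_two_mul _)
  have h1 := odd_case (3 * m : ℤ) (by
      rw [Int.odd_mul]
      exact ⟨by decide, by exact_mod_cast hm⟩) k hk (ω ^ 2) (by
      rw [← pow_mul, ← pow_succ']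
      exact pow_half (by omega) hω) (fun j => tau b (ω ^ 3 ^ j)) ?_
    (fun j => rec hS (by omega) hN (by simpa using hU) hω j) (anti hS (by omega) hω)
  · have h3 := U_zero_of_tau b (by omega) hω (by simpa using h1) 1
    have h4 := hpar 1 (by decide)
    rw [h3] at h4
    exact absurd h4 (by decide)
  · simp only [pow_zero, pow_one]
    rw [tau_eq b (by omega) hω]
    apply int_odd (k + 3) (by omega) ω hω (fun c => U b (k + 3) c)
    intro c _
    constructor
    · intro hc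
      exact hpar c (by exact_mod_cast hc)
    · intro hc
      have h5 := U_even b hS.odd (k + 3) (by omega) c (by exact_mod_cast hc)
      rw [h5]
      exact Even.zero

/-- the level `r = 3` -/
theorem level3 (hS : Sys m N b) (hN : 3 ≤ N) :
    (∀ c, U b 3 c = 0) ∨ (∃ s : ℕ, 3 * (m + 1) = s ^ 2 + 2) := by
  obtain ⟨ω, hω⟩ := exists_root 3
  have hU2 : ∀ c, U b (3 - 1) c = 0 := fun c => U_two b hS.odd c
  have h1 := rec hS le_rfl hN hU2 hω 0
  simp only [zero_add, pow_zero, pow_one] at h1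
  have h4 : ω ^ 4 = -1 := by
    have := pow_half (by omega) hω
    simpa using this
  have hω3 := root_pow hω 1
  rw [pow_one] at hω3
  -- the values
  have e3 : U b 3 3 = - U b 3 1 := by
    have a1 := U_anti b 3 (by omega) (-1)
    have a2 : U b 3 (-1) = U b 3 1 + 0 := by
      unfold U
      have b1 := T_neg b 3 1
      have b2 := T_neg b 3 (-1 + 2 ^ (3 - 1))
      have b3 := T_per b 3 (-(-1 + 2 ^ (3 - 1)))
      have b4 : (-(-1 + 2 ^ (3 - 1)) : ℤ) + 2 ^ 3 = 1 + 2 ^ (3 - 1) := by norm_num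
      rw [b4] at b3
      rw [b1, ← b2, ← b3]
      ring
    have a3 : (-1 : ℤ) + 2 ^ (3 - 1) = 3 := by norm_num
    rw [a3] at a1
    rw [a1, a2, add_zero]
  have hx : ∀ z : ℂ, IsPrimitiveRoot z (2 ^ 3) → tau b z = (U b 3 1 : ℂ) * (z - z ^ 3) := by
    intro z hz
    rw [tau_eq b (by omega) hz]
    have e0 := U_even b hS.odd 3 (by omega) 0 (by decide)
    have e2 := U_even b hS.odd 3 (by omega) 2 (by decide)
    have e1 : (2 : ℕ) ^ (3 - 1) = 4 := by norm_num
    rw [e1, Finset.sum_range_succ, Finset.sum_range_succ, Finset.sum_range_succ,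
      Finset.sum_range_succ, Finset.sum_range_zero]
    push_cast
    rw [e0, e2, e3]
    push_cast
    ring
  rw [hx _ hω, hx _ hω3] at h1
  have h9 : (ω ^ 3) ^ 3 = ω := by
    have : (ω ^ 3) ^ 3 = ω * (ω ^ 4) ^ 2 := by ring
    rw [this, h4]
    ring
  rw [h9] at h1
  have hsq : (ω - ω ^ 3) ^ 2 = 2 := by
    have : (ω - ω ^ 3) ^ 2 = ω ^ 2 - 2 * ω ^ 4 + ω ^ 2 * ω ^ 4 := by ring
    rw [this, h4]
    ring
  have hne : ω - ω ^ 3 ≠ 0 := by
    intro h0
    rw [h0] at hsq
    norm_num at hsq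
  have h10 : (U b 3 1 : ℂ) * ((U b 3 1 : ℂ) ^ 2 - (3 * m + 1)) = 0 := by
    have h11 : (ω - ω ^ 3) * ((U b 3 1 : ℂ) * ((U b 3 1 : ℂ) ^ 2 - (3 * m + 1))) = 0 := by
      push_cast at h1
      linear_combination (1 / 2) * h1 - (1 / 2) * (U b 3 1 : ℂ) ^ 3 * (ω - ω ^ 3) * hsq
    rcases mul_eq_zero.1 h11 with h12 | h12
    · exact absurd h12 hne
    · exact h12
  rcases mul_eq_zero.1 h10 with h12 | h12
  · left
    apply U_zero_of_tau b (by omega) hω
    rw [hx _ hω, h12, zero_mul]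
  · right
    refine ⟨(U b 3 1).natAbs, ?_⟩
    have h13 : (U b 3 1) ^ 2 = 3 * m + 1 := by
      have : ((U b 3 1 : ℤ) : ℂ) ^ 2 = ((3 * m + 1 : ℤ) : ℂ) := by
        push_cast
        linear_combination h12
      exact_mod_cast this
    zify
    rw [sq_abs, h13]
    ring

end TightIndep.T7
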