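import Mathlib

/-!
# T7-Tab: the fibre counts modulo powers of two
-/

namespace TightIndep.T7

open Finset

/-- fibre counts -/
def T {M : ℕ} (b : Fin M → ℤ) (r : ℕ) (c : ℤ) : ℤ :=
  ∑ i, ((if (2 ^ r : ℤ) ∣ b i - c then (1 : ℤ) else 0) + (if (2 ^ r : ℤ) ∣ b i + c then (1 : ℤ) else 0))

/-- differences of fibre counts -/
def U {M : ℕ} (b : Fin M → ℤ) (r : ℕ) (c : ℤ) : ℤ := T b r c - T b r (c + 2 ^ (r - 1))

variable {M : ℕ} (b : Fin M → ℤ)

private theorem Tab_dvd {a x y : ℤ} (h : a ∣ x - y) : a ∣ x ↔ a ∣ y := by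
  constructor
  · intro h1
    have := dvd_sub h1 h
    rwa [sub_sub_cancel] at this
  · intro h1
    have := dvd_add h h1
    rwa [sub_add_cancel] at this

private theorem Tab_congr (r : ℕ) {c c' : ℤ} (h : (2 ^ r : ℤ) ∣ c - c') : T b r c = T b r c' := by
  unfold T
  refine Finset.sum_congr rfl fun i _ => ?_
  have h1 : ((2 ^ r : ℤ) ∣ b i - c) ↔ ((2 ^ r : ℤ) ∣ b i - c') := by
    apply Tab_dvd
    have : b i - c - (b i - c') = -(c - c') := by ring
    rw [this]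
    exact (dvd_neg).2 h
  have h2 : ((2 ^ r : ℤ) ∣ b i + c) ↔ ((2 ^ r : ℤ) ∣ b i + c') := by
    apply Tab_dvd
    have : b i + c - (b i + c') = c - c' := by ring
    rw [this]
    exact h
  simp only [h1, h2]

private theorem Tab_two (r : ℕ) (k : ℤ) : (2 ^ (r + 1) : ℤ) ∣ 2 ^ r * k ↔ (2 : ℤ) ∣ k := by
  rw [pow_succ]
  exact mul_dvd_mul_iff_left (by positivity)

private theorem Tab_ind (r : ℕ) (d e : ℤ) (he : e = d - 2 ^ r ∨ e = d + 2 ^ r) :
    (if (2 ^ r : ℤ) ∣ d then (1 : ℤ) else 0) =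
      (if (2 ^ (r + 1) : ℤ) ∣ d then (1 : ℤ) else 0) + (if (2 ^ (r + 1) : ℤ) ∣ e then (1 : ℤ) else 0) := by
  have hle : (2 ^ r : ℤ) ∣ 2 ^ (r + 1) := pow_dvd_pow 2 (Nat.le_succ r)
  by_cases h : (2 ^ r : ℤ) ∣ d
  · obtain ⟨k, rfl⟩ := h
    have he2 : (2 ^ (r + 1) : ℤ) ∣ e ↔ ¬ (2 : ℤ) ∣ k := by
      rcases he with rfl | rfl
      · have : (2 ^ r : ℤ) * k - 2 ^ r = 2 ^ r * (k - 1) := by ring
        rw [this, Tab_two]
        omega
      · have : (2 ^ r : ℤ) * k + 2 ^ r = 2 ^ r * (k + 1) := by ring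
        rw [this, Tab_two]
        omega
    rw [if_pos (dvd_mul_right _ _)]
    by_cases hk : (2 : ℤ) ∣ k
    · rw [if_pos ((Tab_two r k).2 hk), if_neg (fun hh => he2.1 hh hk)]
      norm_num
    · rw [if_neg (fun hh => hk ((Tab_two r k).1 hh)), if_pos (he2.2 hk)]
      norm_num
  · have h1 : ¬ (2 ^ (r + 1) : ℤ) ∣ d := fun hh => h (hle.trans hh)
    have h2 : ¬ (2 ^ (r + 1) : ℤ) ∣ e := by
      intro hh
      apply h
      have h3 : (2 ^ r : ℤ) ∣ e := hle.trans hh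
      rcases he with rfl | rfl
      · have := dvd_add h3 (dvd_refl (2 ^ r : ℤ))
        rwa [sub_add_cancel] at this
      · have := dvd_sub h3 (dvd_refl (2 ^ r : ℤ))
        rwa [add_sub_cancel_right] at this
    rw [if_neg h, if_neg h1, if_neg h2, add_zero]

theorem T_neg (r : ℕ) (c : ℤ) : T b r (-c) = T b r c := by
  unfold T
  refine Finset.sum_congr rfl fun i _ => ?_
  rw [sub_neg_eq_add, ← sub_eq_add_neg, add_comm]

theorem T_per (r : ℕ) (c : ℤ) : T b r (c + 2 ^ r) = T b r c := by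
  apply Tab_congr
  rw [add_sub_cancel_left]

theorem T_split (r : ℕ) (c : ℤ) : T b r c = T b (r + 1) c + T b (r + 1) (c + 2 ^ r) := by
  unfold T
  rw [← Finset.sum_add_distrib]
  refine Finset.sum_congr rfl fun i _ => ?_
  rw [Tab_ind r (b i - c) (b i - (c + 2 ^ r)) (Or.inl (by ring)),
    Tab_ind r (b i + c) (b i + (c + 2 ^ r)) (Or.inr (by ring))]
  ring

theorem T_even (hb : ∀ i, Odd (b i)) (r : ℕ) (hr : 1 ≤ r) (c : ℤ) (hc : Even c) : T b r c = 0 := by
  unfold T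
  refine Finset.sum_eq_zero fun i _ => ?_
  have h2 : (2 : ℤ) ∣ 2 ^ r := dvd_pow_self 2 (by omega)
  have h1 : ¬ (2 ^ r : ℤ) ∣ b i - c := by
    intro h
    have h3 : Even (b i - c) := even_iff_two_dvd.2 (h2.trans h)
    exact (Int.not_even_iff_odd.2 ((hb i).sub_even hc)) h3
  have h1' : ¬ (2 ^ r : ℤ) ∣ b i + c := by
    intro h
    have h3 : Even (b i + c) := even_iff_two_dvd.2 (h2.trans h)
    exact (Int.not_even_iff_odd.2 ((hb i).add_even hc)) h3
  rw [if_neg h1, if_neg h1', add_zero]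

theorem U_even (hb : ∀ i, Odd (b i)) (r : ℕ) (hr : 2 ≤ r) (c : ℤ) (hc : Even c) : U b r c = 0 := by
  unfold U
  have h2 : Even ((2 : ℤ) ^ (r - 1)) := even_iff_two_dvd.2 (dvd_pow_self 2 (by omega))
  rw [T_even b hb r (by omega) c hc, T_even b hb r (by omega) _ (hc.add h2), sub_zero]

/-- parity of `U` one level up -/
theorem U_succ (r : ℕ) (c : ℤ) : U b (r + 1) c = T b r c - 2 * T b (r + 1) (c + 2 ^ r) := by
  unfold U
  rw [Nat.add_sub_cancel, T_split b r c]
  ring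

theorem U_two (hb : ∀ i, Odd (b i)) (c : ℤ) : U b 2 c = 0 := by
  rcases Int.even_or_odd c with hc | hc
  · exact U_even b hb 2 le_rfl c hc
  · unfold U
    have h1 : T b 2 (c + 2 ^ (2 - 1)) = T b 2 (-c) := by
      apply Tab_congr
      obtain ⟨k, rfl⟩ := hc
      exact ⟨k + 1, by norm_num; ring⟩
    rw [h1, T_neg, sub_self]

theorem T_unif (hb : ∀ i, Odd (b i)) (r : ℕ) (hr : 1 ≤ r)
    (h : ∀ q, 2 ≤ q → q ≤ r → ∀ c, U b q c = 0) (c : ℤ) (hc : Odd c) :
    2 ^ (r - 1) * T b r c = 2 * M := by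
  induction r, hr using Nat.le_induction with
  | base =>
    have h1 : T b 1 c = ∑ _i : Fin M, (2 : ℤ) := by
      unfold T
      refine Finset.sum_congr rfl fun i _ => ?_
      have h2 : (2 ^ 1 : ℤ) ∣ b i - c := by
        rw [pow_one, ← even_iff_two_dvd]
        exact (hb i).sub_odd hc
      have h3 : (2 ^ 1 : ℤ) ∣ b i + c := by
        rw [pow_one, ← even_iff_two_dvd]
        exact (hb i).add_odd hc
      rw [if_pos h2, if_pos h3]
      norm_num
    rw [h1, Finset.sum_const, Finset.card_univ, Fintype.card_fin, nsmul_eq_mul]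
    simp
    ring
  | succ r hr ih =>
    have h1 := ih fun q hq hqr => h q hq (by omega)
    have h2 := h (r + 1) (by omega) le_rfl c
    unfold U at h2
    rw [Nat.add_sub_cancel] at h2
    have h3 := T_split b r c
    have h4 : T b r c = 2 * T b (r + 1) c := by linarith
    rw [h4] at h1
    rw [Nat.add_sub_cancel]
    obtain ⟨k, rfl⟩ : ∃ k, r = k + 1 := ⟨r - 1, by omega⟩
    rw [Nat.add_sub_cancel] at h1
    rw [pow_succ]
    linarith

end TightIndep.T7
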